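import Mathlib

set_option autoImplicit false

namespace Pool.Agent.Results.MP_6784b8_co.UnbalancedTrees

open SimpleGraph Finset

/-- The suspension of `H`: one new vertex `none` joined to every vertex of `H`. -/
def suspension {V : Type*} (H : SimpleGraph V) : SimpleGraph (Option V) where
  Adj x y := match x, y with
    | none, none => False
    | none, some _ => True
    | some _, none => True
    | some u, some v => H.Adj u v
  symm := ⟨by
    rintro (_ | u) (_ | v) h
    · exact h
    · trivial
    · trivial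
    · exact H.adj_symm h⟩
  loopless := ⟨by
    rintro (_ | u) h
    · exact h
    · exact H.loopless.irrefl u h⟩

/-- `f n k` is the maximum of `n₀ * n₁ + ⌊(k - 1) * n₀ / 2⌋` over `n₀ + n₁ = n`. -/
def f (n k : ℕ) : ℕ :=
  (Finset.range (n + 1)).sup fun n₀ => n₀ * (n - n₀) + ((k - 1) * n₀) / 2

/-- The join of two disjoint unions of `j` cliques of size `k`. -/
def joinCliques (j k : ℕ) : SimpleGraph (Bool × Fin j × Fin k) where
  Adj x y := x.1 ≠ y.1 ∨ (x.1 = y.1 ∧ x.2.1 = y.2.1 ∧ x.2.2 ≠ y.2.2)
  symm := ⟨by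
    rintro x y (h | ⟨h1, h2, h3⟩)
    · exact Or.inl h.symm
    · exact Or.inr ⟨h1.symm, h2.symm, h3.symm⟩⟩
  loopless := ⟨by
    rintro x (h | ⟨_, _, h⟩)
    · exact h rfl
    · exact h rfl⟩

instance (j k : ℕ) : DecidableRel (joinCliques j k).Adj := fun x y => by
  unfold joinCliques; dsimp only; infer_instance

lemma card_mates {j k : ℕ} (v : Bool × Fin j × Fin k) :
    (univ.filter fun z : Bool × Fin j × Fin k =>
      z.1 = v.1 ∧ z.2.1 = v.2.1 ∧ z.2.2 ≠ v.2.2).card = k - 1 := by
  have : (univ.filter fun z : Bool × Fin j × Fin k =>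
      z.1 = v.1 ∧ z.2.1 = v.2.1 ∧ z.2.2 ≠ v.2.2)
      = (univ.erase v.2.2).image (fun b => (v.1, v.2.1, b)) := by
    ext ⟨s, x, b⟩
    simp only [mem_filter, mem_univ, true_and, mem_image, mem_erase, and_true, Prod.mk.injEq]
    constructor
    · rintro ⟨h1, h2, h3⟩
      exact ⟨b, h3, h1.symm, h2.symm, rfl⟩
    · rintro ⟨a, h3, h1, h2, rfl⟩
      exact ⟨h1.symm, h2.symm, h3⟩
  rw [this, card_image_of_injective, card_erase_of_mem (mem_univ _), card_univ, Fintype.card_fin]
  intro a b h
  simpa using h

lemma card_other {j k : ℕ} (v : Bool × Fin j × Fin k) :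
    (univ.filter fun z : Bool × Fin j × Fin k => v.1 ≠ z.1).card = j * k := by
  have : (univ.filter fun z : Bool × Fin j × Fin k => v.1 ≠ z.1)
      = (univ : Finset (Fin j × Fin k)).image (fun b => (!v.1, b)) := by
    ext ⟨s, x⟩
    simp only [mem_filter, mem_univ, true_and, mem_image, Prod.mk.injEq]
    constructor
    · intro h
      refine ⟨x, ?_, rfl⟩
      cases hv : v.1 <;> cases s <;> simp_all
    · rintro ⟨a, h1, rfl⟩
      cases hv : v.1 <;> cases s <;> simp_all
  rw [this, card_image_of_injective, card_univ, Fintype.card_prod, Fintype.card_fin,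
    Fintype.card_fin]
  intro a b h
  simpa using h

lemma degree_joinCliques {j k : ℕ} (v : Bool × Fin j × Fin k) :
    (joinCliques j k).degree v = j * k + (k - 1) := by
  have h : (joinCliques j k).neighborFinset v =
      (univ.filter fun z : Bool × Fin j × Fin k => v.1 ≠ z.1) ∪
      (univ.filter fun z : Bool × Fin j × Fin k =>
      z.1 = v.1 ∧ z.2.1 = v.2.1 ∧ z.2.2 ≠ v.2.2) := by
    ext z
    simp only [mem_neighborFinset, mem_union, mem_filter, mem_univ, true_and]
    constructor
    · rintro (h | ⟨h1, h2, h3⟩)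
      · exact Or.inl h
      · exact Or.inr ⟨h1.symm, h2.symm, h3.symm⟩
    · rintro (h | ⟨h1, h2, h3⟩)
      · exact Or.inl h
      · exact Or.inr ⟨h1.symm, h2.symm, h3.symm⟩
  rw [← card_neighborFinset_eq_degree, h, card_union_of_disjoint, card_other, card_mates]
  rw [Finset.disjoint_left]
  intro z hz hz'
  simp only [mem_filter, mem_univ, true_and] at hz hz'
  exact hz hz'.1.symm

lemma card_edges (j k : ℕ) :
    2 * (joinCliques j k).edgeFinset.card = 2 * (j * k) * (j * k + (k - 1)) := by
  rw [← sum_degrees_eq_twice_card_edges]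
  simp only [degree_joinCliques, sum_const, card_univ, Fintype.card_prod, Fintype.card_bool,
    Fintype.card_fin, smul_eq_mul]

/-- common neighbours of two vertices on different sides -/
lemma card_common {j k : ℕ} (v w : Bool × Fin j × Fin k) (h : v.1 ≠ w.1) :
    (univ.filter fun z : Bool × Fin j × Fin k =>
      (joinCliques j k).Adj v z ∧ (joinCliques j k).Adj w z).card ≤ 2 * (k - 1) := by
  have hsub : (univ.filter fun z : Bool × Fin j × Fin k =>
      (joinCliques j k).Adj v z ∧ (joinCliques j k).Adj w z) ⊆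
      (univ.filter fun z : Bool × Fin j × Fin k =>
      z.1 = v.1 ∧ z.2.1 = v.2.1 ∧ z.2.2 ≠ v.2.2) ∪
      (univ.filter fun z : Bool × Fin j × Fin k =>
      z.1 = w.1 ∧ z.2.1 = w.2.1 ∧ z.2.2 ≠ w.2.2) := by
    intro z hz
    simp only [mem_filter, mem_univ, true_and, mem_union] at hz ⊢
    obtain ⟨h1, h2⟩ := hz
    rcases h1 with h1 | ⟨h1, h1', h1''⟩
    · rcases h2 with h2 | ⟨h2, h2', h2''⟩
      · exfalso
        cases hv : v.1 <;> cases hw : w.1 <;> cases hz : z.1 <;> simp_all
      · exact Or.inr ⟨h2.symm, h2'.symm, h2''.symm⟩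
    · exact Or.inl ⟨h1.symm, h1'.symm, h1''.symm⟩
  calc _ ≤ _ := card_le_card hsub
    _ ≤ _ := card_union_le _ _
    _ = 2 * (k - 1) := by rw [card_mates, card_mates]; ring

/-- The key lemma: if a graph `T` has `k` vertices of degree at least `2 * k - 1`, then the join of
two disjoint unions of cliques `K_k` contains no copy of the suspension of `T`. -/
lemma free_joinCliques {W : Type*} (T : SimpleGraph W) (j k : ℕ) (hk : 1 ≤ k)
    (K : Finset W) (hK : k ≤ K.card)
    (hdeg : ∀ c ∈ K, ∃ S : Finset W, 2 * k - 1 ≤ S.card ∧ ∀ x ∈ S, T.Adj c x) :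
    (suspension T).Free (joinCliques j k) := by
  classical
  rintro ⟨φ⟩
  have hinj : Function.Injective φ := φ.injective
  have hadj : ∀ x y, (suspension T).Adj x y → (joinCliques j k).Adj (φ x) (φ y) :=
    fun x y h => φ.toHom.map_adj h
  set v := φ none with hv
  have hside : ∀ c ∈ K, (φ (some c)).1 = v.1 := by
    intro c hc
    by_contra hne
    obtain ⟨S, hS, hSadj⟩ := hdeg c hc
    have hsub : S.image (fun x => φ (some x)) ⊆
        (univ.filter fun z : Bool × Fin j × Fin k =>
      (joinCliques j k).Adj v z ∧ (joinCliques j k).Adj (φ (some c)) z) := by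
      intro z hz
      rw [mem_image] at hz
      obtain ⟨x, hx, rfl⟩ := hz
      rw [mem_filter]
      refine ⟨mem_univ _, hadj none (some x) trivial, hadj (some c) (some x) (hSadj x hx)⟩
    have h1 := card_le_card hsub
    rw [card_image_of_injective _ (fun a b hab => by simpa using hinj hab)] at h1
    have h2 := card_common v (φ (some c)) (fun h => hne h.symm)
    omega
  have hsub : K.image (fun x => φ (some x)) ⊆
      (univ.filter fun z : Bool × Fin j × Fin k =>
      z.1 = v.1 ∧ z.2.1 = v.2.1 ∧ z.2.2 ≠ v.2.2) := by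
    intro z hz
    rw [mem_image] at hz
    obtain ⟨x, hx, rfl⟩ := hz
    have hs := hside x hx
    have ha : (joinCliques j k).Adj v (φ (some x)) := hadj none (some x) trivial
    rw [mem_filter]
    refine ⟨mem_univ _, hs, ?_⟩
    rcases ha with ha | ⟨_, ha', ha''⟩
    · exact absurd hs.symm ha
    · exact ⟨ha'.symm, ha''.symm⟩
  have h1 := card_le_card hsub
  rw [card_image_of_injective _ (fun a b hab => by simpa using hinj hab), card_mates] at h1
  omega

/-- Lower bound for the extremal number for every `n ≥ 2`. -/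
lemma extremal_lower {W : Type*} (T : SimpleGraph W) (k : ℕ) (hk : 2 ≤ k)
    (hfree : ∀ j, (suspension T).Free (joinCliques j k)) (n : ℕ) (hn : 2 ≤ n) :
    (n : ℝ) ^ 2 / 4 + (k - 1) * n / 2 - k * (2 * k - 1) / 2 ≤
      extremalNumber n (suspension T) := by
  set j := n / (2 * k) + 1 with hj
  set N := 2 * k * j with hN
  have hk0 : 0 < 2 * k := by omega
  have hnN : n ≤ N := by
    have := Nat.div_add_mod n (2 * k)
    have h2 := Nat.mod_lt n hk0
    rw [hN, hj, mul_add, mul_one]
    omega
  have hNn : N ≤ n + 2 * k := by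
    have := Nat.div_mul_le_self n (2 * k)
    rw [hN, hj, mul_add, mul_one, mul_comm]
    omega
  have hexN : (joinCliques j k).edgeFinset.card ≤ extremalNumber N (suspension T) := by
    have h := card_edgeFinset_le_extremalNumber (hfree j)
    have hc : Fintype.card (Bool × Fin j × Fin k) = N := by
      simp only [Fintype.card_prod, Fintype.card_bool, Fintype.card_fin]
      rw [hN]; ring
    rw [hc] at h
    exact h
  have hedges := card_edges j k
  have hexN' : (N : ℝ) * (N + 2 * (k - 1)) / 4 ≤ extremalNumber N (suspension T) := by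
    have h1 : (2 * (joinCliques j k).edgeFinset.card : ℝ) =
        2 * (j * k) * (j * k + (k - 1)) := by
      have := congrArg (Nat.cast : ℕ → ℝ) hedges
      push_cast [Nat.cast_sub (show 1 ≤ k by omega)] at this
      exact this
    have h2 : ((joinCliques j k).edgeFinset.card : ℝ) ≤ extremalNumber N (suspension T) := by
      exact_mod_cast hexN
    have h3 : (N : ℝ) = 2 * k * j := by rw [hN]; push_cast; ring
    nlinarith
  have hmono := antitoneOn_extremalNumber_div_choose_two (suspension T)
    (show n ∈ Set.Ici 2 from hn) (show N ∈ Set.Ici 2 from le_trans hn hnN) hnN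
  simp only at hmono
  have hnR : (2 : ℝ) ≤ n := by exact_mod_cast hn
  have hNR : (n : ℝ) ≤ N := by exact_mod_cast hnN
  have hNR' : (N : ℝ) ≤ n + 2 * k := by exact_mod_cast hNn
  have hkR : (2 : ℝ) ≤ k := by exact_mod_cast hk
  rw [Nat.cast_choose_two, Nat.cast_choose_two] at hmono
  have hpos1 : (0 : ℝ) < n * (n - 1) / 2 := by nlinarith
  have hpos2 : (0 : ℝ) < N * (N - 1) / 2 := by nlinarith
  rw [div_le_div_iff₀ hpos2 hpos1] at hmono
  -- ex(N) * n(n-1)/2 ≤ ex(n) * N(N-1)/2
  set a : ℝ := (extremalNumber N (suspension T) : ℝ) with ha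
  set b : ℝ := (extremalNumber n (suspension T) : ℝ) with hb
  have h5 : (N : ℝ) * (N + 2 * (k - 1)) / 4 * (n * (n - 1) / 2) ≤ b * (N * (N - 1) / 2) :=
    le_trans (mul_le_mul_of_nonneg_right hexN' hpos1.le) hmono
  have hNpos : (0 : ℝ) < N := by linarith
  have h6 : ((N : ℝ) + 2 * (k - 1)) * (n * (n - 1)) / 4 ≤ b * (N - 1) := by
    have : (N : ℝ) * (((N : ℝ) + 2 * (k - 1)) * (n * (n - 1)) / 4) ≤ N * (b * (N - 1)) := by
      nlinarith
    exact le_of_mul_le_mul_left this hNpos
  have hN1 : (0 : ℝ) < (N : ℝ) - 1 := by linarith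
  have h7 : ((n : ℝ) ^ 2 / 4 + (k - 1) * n / 2 - k * (2 * k - 1) / 2) * (N - 1) ≤
      ((N : ℝ) + 2 * (k - 1)) * (n * (n - 1)) / 4 := by
    -- (N + 2k - 2) = (N - 1) + (2k - 1)
    have h8 : ((2 * k - 1) * (n - 2 * k) : ℝ) * (N - 1) ≤ (2 * k - 1) * (n * (n - 1)) := by
      have h9 : ((n : ℝ) - 2 * k) * (N - 1) ≤ n * (n - 1) := by
        by_cases hc : (n : ℝ) - 2 * k ≤ 0
        · have : ((n : ℝ) - 2 * k) * (N - 1) ≤ 0 :=
            mul_nonpos_of_nonpos_of_nonneg hc hN1.le
          nlinarith
        · push Not at hc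
          have : ((n : ℝ) - 2 * k) * (N - 1) ≤ (n - 2 * k) * (n + 2 * k - 1) :=
            mul_le_mul_of_nonneg_left (by linarith) hc.le
          nlinarith
      have h10 : (0 : ℝ) ≤ 2 * k - 1 := by linarith
      nlinarith
    nlinarith
  exact le_of_mul_le_mul_right (le_trans h7 h6) hN1

lemma f_upper (n k : ℕ) (hk : 1 ≤ k) :
    (f n k : ℝ) ≤ (n : ℝ) ^ 2 / 4 + (k - 1) * n / 4 + (k - 1) ^ 2 / 16 := by
  obtain ⟨m, hm, hfm⟩ := Finset.exists_mem_eq_sup (Finset.range (n + 1)) ⟨0, by simp⟩
    (fun n₀ => n₀ * (n - n₀) + ((k - 1) * n₀) / 2)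
  rw [f, hfm]
  have hmn : m ≤ n := by
    have := Finset.mem_range.mp hm
    omega
  have h1 : ((((k - 1) * m) / 2 : ℕ) : ℝ) ≤ ((k : ℝ) - 1) * m / 2 := by
    have := @Nat.cast_div_le ℝ _ _ _ ((k - 1) * m) 2
    push_cast [Nat.cast_sub hk] at this
    exact this
  push_cast [Nat.cast_sub hmn]
  nlinarith [sq_nonneg ((m : ℝ) - n / 2 - (k - 1) / 4)]

/-! ### The trees -/

/-- Vertices: the root `none`, the `k` centres `some (i, none)`, and the leaves
`some (i, some l)`. -/
abbrev TV (k m : ℕ) := Option (Fin k × Option (Fin m))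

/-- parent of a non-root vertex -/
def parent {k m : ℕ} : Fin k × Option (Fin m) → TV k m
  | (_, none) => none
  | (i, some _) => some (i, none)

/-- The tree: a root joined to `k` centres, each centre joined to `m` further leaves. -/
def tree (k m : ℕ) : SimpleGraph (TV k m) where
  Adj x y := (∃ a, x = some a ∧ y = parent a) ∨ (∃ a, y = some a ∧ x = parent a)
  symm := ⟨by
    rintro x y (h | h)
    · exact Or.inr h
    · exact Or.inl h⟩
  loopless := ⟨by
    rintro x (⟨⟨i, l⟩, h1, h2⟩ | ⟨⟨i, l⟩, h1, h2⟩) <;>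
    · rw [h1] at h2
      cases l <;> simp [parent] at h2⟩

lemma tree_adj_parent {k m : ℕ} (a : Fin k × Option (Fin m)) :
    (tree k m).Adj (some a) (parent a) := Or.inl ⟨a, rfl, rfl⟩

lemma tree_connected (k m : ℕ) : (tree k m).Connected := by
  have : Nonempty (TV k m) := ⟨none⟩
  have hroot : ∀ x : TV k m, (tree k m).Reachable x none := by
    rintro (_ | ⟨i, l⟩)
    · exact Reachable.refl _
    · cases l with
      | none => exact (tree_adj_parent (i, none)).reachable
      | some l =>
        exact (tree_adj_parent (i, some l)).reachable.trans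
          (tree_adj_parent (i, none)).reachable
  exact ⟨fun x y => (hroot x).trans (hroot y).symm⟩

lemma tree_isTree (k m : ℕ) : (tree k m).IsTree := by
  classical
  rw [isTree_iff_connected_and_card]
  refine ⟨tree_connected k m, ?_⟩
  have h1 := (tree_connected k m).card_vert_le_card_edgeSet_add_one
  have h2 : Nat.card (tree k m).edgeSet ≤ Nat.card (Fin k × Option (Fin m)) := by
    have hsub : (tree k m).edgeSet ⊆ Set.range
        (fun a : Fin k × Option (Fin m) => s((some a : TV k m), parent a)) := by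
      intro e he
      induction e using Sym2.ind with
      | _ x y =>
        rw [mem_edgeSet] at he
        rcases he with ⟨a, rfl, rfl⟩ | ⟨a, rfl, rfl⟩
        · exact ⟨a, rfl⟩
        · exact ⟨a, Sym2.eq_swap⟩
    calc Nat.card (tree k m).edgeSet ≤ Nat.card (Set.range
        (fun a : Fin k × Option (Fin m) => s((some a : TV k m), parent a))) :=
          Nat.card_mono (Set.toFinite _) hsub
      _ ≤ _ := Finite.card_range_le _
  have h3 : Nat.card (TV k m) = Nat.card (Fin k × Option (Fin m)) + 1 := by
    simp [TV, Nat.card_eq_fintype_card, Fintype.card_option]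
  omega

/-- The colouring of the tree: `true` on the centres. -/
def colour {k m : ℕ} : TV k m → Bool
  | none => false
  | some (_, none) => true
  | some (_, some _) => false

def colouring (k m : ℕ) : (tree k m).Coloring Bool :=
  Coloring.mk colour (by
    rintro x y (⟨⟨i, l⟩, rfl, rfl⟩ | ⟨⟨i, l⟩, rfl, rfl⟩) <;> cases l <;> simp [colour, parent])

lemma card_true (k m : ℕ) : Nat.card {v : TV k m // colouring k m v = true} = k := by
  have e : Fin k ≃ {v : TV k m // colouring k m v = true} :=
    { toFun := fun i => ⟨some (i, none), rfl⟩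
      invFun := fun v => match v with
        | ⟨some (i, none), _⟩ => i
      left_inv := fun i => rfl
      right_inv := by
        rintro ⟨(_ | ⟨i, (_ | l)⟩), h⟩
        · exact absurd h Bool.false_ne_true
        · rfl
        · exact absurd h Bool.false_ne_true }
  rw [← Nat.card_congr e, Nat.card_eq_fintype_card, Fintype.card_fin]

lemma card_false (k m : ℕ) (hm : 1 ≤ m) : k ≤ Nat.card {v : TV k m // colouring k m v = false} := by
  let g : Fin k → {v : TV k m // colouring k m v = false} :=
    fun i => ⟨some (i, some ⟨0, hm⟩), rfl⟩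
  have hg : Function.Injective g := by
    intro a b hab
    have h := congrArg Subtype.val hab
    simpa [g] using h
  calc k = Nat.card (Fin k) := by simp
    _ ≤ _ := Nat.card_le_card_of_injective g hg

lemma tree_free (k j : ℕ) (hk : 2 ≤ k) :
    (suspension (tree k (2 * k - 2))).Free (joinCliques j k) := by
  classical
  refine free_joinCliques _ j k (by omega)
    ((univ : Finset (Fin k)).image fun i => (some (i, none) : TV k (2 * k - 2))) ?_ ?_
  · rw [card_image_of_injective]
    · simp
    · intro a b h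
      simpa using h
  · intro c hc
    rw [mem_image] at hc
    obtain ⟨i, -, rfl⟩ := hc
    refine ⟨insert none ((univ : Finset (Fin (2 * k - 2))).image fun l => some (i, some l)),
      ?_, ?_⟩
    · rw [card_insert_of_notMem, card_image_of_injective]
      · simp only [card_univ, Fintype.card_fin]
        omega
      · intro a b h
        simpa using h
      · simp
    · intro x hx
      rw [mem_insert, mem_image] at hx
      rcases hx with rfl | ⟨l, -, rfl⟩
      · exact tree_adj_parent (i, none)
      · exact (tree_adj_parent (i, some l)).symm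

/-- For every `k ≥ 2` there is a tree `T` whose smaller colour class has size `k` and for which
`ex(n, suspension of T) ≤ f(n, k)` fails for all large `n`, by a linear amount. -/
theorem result : ∀ k : ℕ, 2 ≤ k →
    ∃ (V : Type) (_ : Fintype V) (T : SimpleGraph V) (C : T.Coloring Bool),
      T.IsTree ∧ Nat.card {v // C v = true} = k ∧ k ≤ Nat.card {v // C v = false} ∧
      (∀ n : ℕ, 2 ≤ n →
        (f n k : ℝ) + (k - 1) * n / 4 - 2 * k ^ 2 ≤ extremalNumber n (suspension T)) ∧
      ∃ N : ℕ, ∀ n : ℕ, N ≤ n → f n k < extremalNumber n (suspension T) := by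
  intro k hk
  have hkR : (2 : ℝ) ≤ k := by exact_mod_cast hk
  have key : ∀ n : ℕ, 2 ≤ n →
      (f n k : ℝ) + (k - 1) * n / 4 - 2 * k ^ 2 ≤
        extremalNumber n (suspension (tree k (2 * k - 2))) := by
    intro n hn
    have h1 := extremal_lower (tree k (2 * k - 2)) k hk (fun j => tree_free k j hk) n hn
    have h2 := f_upper n k (by omega)
    nlinarith
  refine ⟨TV k (2 * k - 2), inferInstance, tree k (2 * k - 2), colouring k (2 * k - 2),
    tree_isTree _ _, card_true _ _, card_false _ _ (by omega), key, 16 * k ^ 2, ?_⟩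
  intro n hn
  have hn' : (16 * k ^ 2 : ℝ) ≤ n := by exact_mod_cast hn
  have h2n : 2 ≤ n := by nlinarith
  have h := key n h2n
  have : (f n k : ℝ) < extremalNumber n (suspension (tree k (2 * k - 2))) := by nlinarith
  exact_mod_cast this

end Pool.Agent.Results.MP_6784b8_co.UnbalancedTrees
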